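import Mathlib

set_option autoImplicit false
set_option linter.unusedVariables false

namespace Pool.Agent.Results.MP_a60869_co.Full

/-- The book `B_n` is super edge-magic. Vertices `(i, t)`: `i = none` is the centre of the star,
`t` the copy. Edges: rungs `(i,0)(i,1)` and spokes `(none,t)(some i,t)`. -/
def SEM (n : ℕ) : Prop :=
  ∃ (f : Option (Fin n) × Fin 2 → ℕ) (g : Option (Fin n) ⊕ (Fin n × Fin 2) → ℕ) (σ : ℕ),
    Set.BijOn (Sum.elim f g) Set.univ (Set.Icc 1 ((2 * n + 2) + (3 * n + 1))) ∧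
    Set.range f = Set.Icc 1 (2 * n + 2) ∧
    (∀ i, f (i, 0) + g (.inl i) + f (i, 1) = σ) ∧
    (∀ i t, f (none, t) + g (.inr (i, t)) + f (some i, t) = σ)

lemma bij_of {α : Type} [Finite α] (f : α → ℕ) (N : ℕ) (hc : Nat.card α ≤ N)
    (hs : ∀ x, 1 ≤ x → x ≤ N → ∃ a, f a = x) :
    Nat.card α = N ∧ Set.BijOn f Set.univ (Set.Icc 1 N) := by
  classical
  let _ := Fintype.ofFinite α
  have h1 : Finset.Icc 1 N ⊆ Finset.univ.image f := by
    intro x hx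
    rw [Finset.mem_Icc] at hx
    obtain ⟨a, ha⟩ := hs x hx.1 hx.2
    exact Finset.mem_image.mpr ⟨a, Finset.mem_univ _, ha⟩
  have h2 : (Finset.univ.image f).card ≤ Fintype.card α := Finset.card_image_le
  have h3 := Finset.card_le_card h1
  rw [Nat.card_eq_fintype_card] at hc ⊢
  simp only [Nat.card_Icc, add_tsub_cancel_right] at h3
  have h4 : Finset.Icc 1 N = Finset.univ.image f :=
    Finset.eq_of_subset_of_card_le h1 (by simp only [Nat.card_Icc, add_tsub_cancel_right]; omega)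
  have h5 : Set.InjOn f (Finset.univ : Finset α) :=
    Finset.card_image_iff.mp (by rw [Finset.card_univ]; omega)
  refine ⟨by omega, fun a _ => ?_, by simpa using h5, fun x hx => ?_⟩
  · have : f a ∈ Finset.Icc 1 N := h4 ▸ Finset.mem_image_of_mem f (Finset.mem_univ a)
    simpa using this
  · obtain ⟨a, ha⟩ := hs x hx.1 hx.2
    exact ⟨a, trivial, ha⟩

lemma mk (n a b s : ℕ) (U W : ℕ → ℕ)
    (h1 : ∀ v, 1 ≤ v → v ≤ 2 * n + 2 → a = v ∨ b = v ∨ ∃ j < n, U j = v ∨ W j = v)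
    (h2 : ∀ v, s ≤ v → v ≤ s + 3 * n →
      a + b = v ∨ ∃ j < n, a + U j = v ∨ b + W j = v ∨ U j + W j = v) : SEM n := by
  let f : Option (Fin n) × Fin 2 → ℕ := fun p =>
    if p.2 = 0 then p.1.elim a (fun i => U i) else p.1.elim b (fun i => W i)
  have hf : ∀ v, 1 ≤ v → v ≤ 2 * n + 2 → ∃ p, f p = v := by
    intro v x y
    rcases h1 v x y with h | h | ⟨j, hj, h | h⟩
    · exact ⟨(none, 0), h⟩
    · exact ⟨(none, 1), h⟩
    · exact ⟨(some ⟨j, hj⟩, 0), h⟩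
    · exact ⟨(some ⟨j, hj⟩, 1), h⟩
  let k := s + 5 * n + 3
  let g : Option (Fin n) ⊕ (Fin n × Fin 2) → ℕ :=
    Sum.elim (fun i => k - (f (i, 0) + f (i, 1))) fun p => k - (f (none, p.2) + f (some p.1, p.2))
  obtain ⟨-, hb⟩ := bij_of (Sum.elim f g) ((2 * n + 2) + (3 * n + 1)) (by simp; omega) (by
    intro v x y
    by_cases c : v ≤ 2 * n + 2
    · obtain ⟨p, hp⟩ := hf v x c
      exact ⟨.inl p, hp⟩
    · rcases h2 (k - v) (by omega) (by omega) with h | ⟨j, hj, h | h | h⟩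
      · refine ⟨.inr (.inl none), ?_⟩
        show k - (a + b) = v
        omega
      · refine ⟨.inr (.inr (⟨j, hj⟩, 0)), ?_⟩
        show k - (a + U j) = v
        omega
      · refine ⟨.inr (.inr (⟨j, hj⟩, 1)), ?_⟩
        show k - (b + W j) = v
        omega
      · refine ⟨.inr (.inl (some ⟨j, hj⟩)), ?_⟩
        show k - (U j + W j) = v
        omega)
  refine ⟨f, g, k, hb, ?_, fun i => ?_, fun i t => ?_⟩
  · have := (bij_of f (2 * n + 2) (by simp; omega) hf).2.image_eq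
    rwa [Set.image_univ] at this
  · have := (hb.1 (Set.mem_univ (.inr (.inl i)))).1
    change 1 ≤ k - (f (i, 0) + f (i, 1)) at this
    show f (i, 0) + (k - (f (i, 0) + f (i, 1))) + f (i, 1) = k
    omega
  · have := (hb.1 (Set.mem_univ (.inr (.inr (i, t))))).1
    change 1 ≤ k - (f (none, t) + f (some i, t)) at this
    show f (none, t) + (k - (f (none, t) + f (some i, t))) + f (some i, t) = k
    omega

lemma sum_bij {α : Type} [Fintype α] (f : α → ℕ) (N : ℕ)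
    (h : Set.BijOn f Set.univ (Set.Icc 1 N)) : 2 * ∑ x, f x = N * (N + 1) := by
  have e : ∑ x, f x = ∑ v ∈ Finset.Icc 1 N, v :=
    Finset.sum_nbij f (fun a _ => by simpa using h.1 (Set.mem_univ a)) (by simpa using h.2.1)
      (by simpa using h.2.2) (fun _ _ => rfl)
  rw [e]
  clear e h
  induction N with
  | zero => simp
  | succ N ih => rw [Finset.sum_Icc_succ_top (by omega), mul_add, ih]; ring

lemma nec (n : ℕ) (h : SEM n) : n % 2 = 0 ∨ n % 8 = 5 := by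
  obtain ⟨f, g, σ, hb, hr, h1, h2⟩ := h
  have s1 := sum_bij _ _ hb
  have s2 := sum_bij f (2 * n + 2) ⟨fun a _ => hr ▸ ⟨a, rfl⟩,
    fun a _ b _ hab => Sum.inl_injective (hb.2.1 (Set.mem_univ (Sum.inl a)) (Set.mem_univ (Sum.inl b))
      (show Sum.elim f g (.inl a) = Sum.elim f g (.inl b) from hab)),
    fun x hx => by rw [← hr] at hx; obtain ⟨a, ha⟩ := hx; exact ⟨a, trivial, ha⟩⟩
  have e1 := Finset.sum_congr (rfl : (Finset.univ : Finset (Option (Fin n))) = _) fun i _ => h1 i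
  have e2 := Finset.sum_congr (rfl : (Finset.univ : Finset (Fin n)) = _) fun i _ => h2 i 0
  have e3 := Finset.sum_congr (rfl : (Finset.univ : Finset (Fin n)) = _) fun i _ => h2 i 1
  simp only [Fintype.sum_sum_type, Sum.elim_inl, Sum.elim_inr, Fintype.sum_prod_type,
    Fintype.sum_option, Fin.sum_univ_two, Finset.sum_add_distrib, Finset.sum_const,
    Finset.card_univ, Fintype.card_option, Fintype.card_fin, smul_eq_mul] at s1 s2 e1 e2 e3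
  by_contra hc
  obtain ⟨r, hr'⟩ : ∃ r, n = 4 * r + 3 ∨ n = 8 * r + 1 := by
    by_cases c : n % 4 = 3
    · exact ⟨n / 4, by omega⟩
    · exact ⟨n / 8, by omega⟩
  generalize f (none, 0) = a at *
  generalize f (none, 1) = b at *
  have key : 2 * (3 * n + 1) * σ + 2 * (a + b) =
      (5 * n + 3) * (5 * n + 4) + (2 * n + 2) * (2 * n + 3) + 2 * n * (a + b) := by
    linarith
  clear s1 s2 e1 e2 e3
  rcases hr' with rfl | rfl
  · ring_nf at key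
    omega
  · ring_nf at key
    omega

def UA (t j : ℕ) : ℕ :=
  if j + 1 < t then (2 * j + 4) else
  if j + 2 < 2 * t then (2 * j + 7 - (2 * t)) else
  if j + 3 < 3 * t then (2 * j + 7 - (2 * t)) else
  if j + 5 < 4 * t then (2 * j + 10 - (4 * t)) else
  if j + 4 < 4 * t then (1) else
  if j + 3 < 4 * t then (2) else
  if j + 2 < 4 * t then (3) else
  if j + 1 < 4 * t then (4 * t) else
  (6 * t)

lemma UA_0 (t j : ℕ) (hp0 : 2 ≤ t) (h1 : 0 ≤ j) (h2 : j + 1 < t) :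
    UA t j = 2 * j + 4 := by
  unfold UA; rw [if_pos (by omega)] <;> omega

lemma UA_1 (t j : ℕ) (hp0 : 2 ≤ t) (h1 : t ≤ j + 1) (h2 : j + 2 < 2 * t) :
    UA t j + 2 * t = 2 * j + 7 := by
  unfold UA; rw [if_neg (by omega), if_pos (by omega)] <;> omega

lemma UA_2 (t j : ℕ) (hp0 : 2 ≤ t) (h1 : 2 * t ≤ j + 2) (h2 : j + 3 < 3 * t) :
    UA t j + 2 * t = 2 * j + 7 := by
  unfold UA; rw [if_neg (by omega), if_neg (by omega), if_pos (by omega)] <;> omega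

lemma UA_3 (t j : ℕ) (hp0 : 2 ≤ t) (h1 : 3 * t ≤ j + 3) (h2 : j + 5 < 4 * t) :
    UA t j + 4 * t = 2 * j + 10 := by
  unfold UA; rw [if_neg (by omega), if_neg (by omega), if_neg (by omega), if_pos (by omega)] <;> omega

lemma UA_4 (t j : ℕ) (hp0 : 2 ≤ t) (h1 : 4 * t ≤ j + 5) (h2 : j + 4 < 4 * t) :
    UA t j = 1 := by
  unfold UA; rw [if_neg (by omega), if_neg (by omega), if_neg (by omega), if_neg (by omega), if_pos (by omega)] <;> omega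

lemma UA_5 (t j : ℕ) (hp0 : 2 ≤ t) (h1 : 4 * t ≤ j + 4) (h2 : j + 3 < 4 * t) :
    UA t j = 2 := by
  unfold UA; rw [if_neg (by omega), if_neg (by omega), if_neg (by omega), if_neg (by omega), if_neg (by omega), if_pos (by omega)] <;> omega

lemma UA_6 (t j : ℕ) (hp0 : 2 ≤ t) (h1 : 4 * t ≤ j + 3) (h2 : j + 2 < 4 * t) :
    UA t j = 3 := by
  unfold UA; rw [if_neg (by omega), if_neg (by omega), if_neg (by omega), if_neg (by omega), if_neg (by omega), if_neg (by omega), if_pos (by omega)] <;> omega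

lemma UA_7 (t j : ℕ) (hp0 : 2 ≤ t) (h1 : 4 * t ≤ j + 2) (h2 : j + 1 < 4 * t) :
    UA t j = 4 * t := by
  unfold UA; rw [if_neg (by omega), if_neg (by omega), if_neg (by omega), if_neg (by omega), if_neg (by omega), if_neg (by omega), if_neg (by omega), if_pos (by omega)] <;> omega

lemma UA_8 (t j : ℕ) (hp0 : 2 ≤ t) (h1 : 4 * t ≤ j + 1) (h2 : j < 4 * t) :
    UA t j = 6 * t := by
  unfold UA; rw [if_neg (by omega), if_neg (by omega), if_neg (by omega), if_neg (by omega), if_neg (by omega), if_neg (by omega), if_neg (by omega), if_neg (by omega)] <;> omega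

def WA (t j : ℕ) : ℕ :=
  if j + 1 < t then (6 * t - (j + 1)) else
  if j + 2 < 2 * t then (9 * t - (j + 1)) else
  if j + 3 < 3 * t then (7 * t - (j + 2)) else
  if j + 5 < 4 * t then (10 * t - (j + 3)) else
  if j + 4 < 4 * t then (7 * t + 1) else
  if j + 3 < 4 * t then (8 * t + 2) else
  if j + 2 < 4 * t then (4 * t + 1) else
  if j + 1 < 4 * t then (8 * t + 1) else
  (6 * t + 2)

lemma WA_0 (t j : ℕ) (hp0 : 2 ≤ t) (h1 : 0 ≤ j) (h2 : j + 1 < t) :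
    WA t j + j + 1 = 6 * t := by
  unfold WA; rw [if_pos (by omega)] <;> omega

lemma WA_1 (t j : ℕ) (hp0 : 2 ≤ t) (h1 : t ≤ j + 1) (h2 : j + 2 < 2 * t) :
    WA t j + j + 1 = 9 * t := by
  unfold WA; rw [if_neg (by omega), if_pos (by omega)] <;> omega

lemma WA_2 (t j : ℕ) (hp0 : 2 ≤ t) (h1 : 2 * t ≤ j + 2) (h2 : j + 3 < 3 * t) :
    WA t j + j + 2 = 7 * t := by
  unfold WA; rw [if_neg (by omega), if_neg (by omega), if_pos (by omega)] <;> omega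

lemma WA_3 (t j : ℕ) (hp0 : 2 ≤ t) (h1 : 3 * t ≤ j + 3) (h2 : j + 5 < 4 * t) :
    WA t j + j + 3 = 10 * t := by
  unfold WA; rw [if_neg (by omega), if_neg (by omega), if_neg (by omega), if_pos (by omega)] <;> omega

lemma WA_4 (t j : ℕ) (hp0 : 2 ≤ t) (h1 : 4 * t ≤ j + 5) (h2 : j + 4 < 4 * t) :
    WA t j = 7 * t + 1 := by
  unfold WA; rw [if_neg (by omega), if_neg (by omega), if_neg (by omega), if_neg (by omega), if_pos (by omega)] <;> omega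

lemma WA_5 (t j : ℕ) (hp0 : 2 ≤ t) (h1 : 4 * t ≤ j + 4) (h2 : j + 3 < 4 * t) :
    WA t j = 8 * t + 2 := by
  unfold WA; rw [if_neg (by omega), if_neg (by omega), if_neg (by omega), if_neg (by omega), if_neg (by omega), if_pos (by omega)] <;> omega

lemma WA_6 (t j : ℕ) (hp0 : 2 ≤ t) (h1 : 4 * t ≤ j + 3) (h2 : j + 2 < 4 * t) :
    WA t j = 4 * t + 1 := by
  unfold WA; rw [if_neg (by omega), if_neg (by omega), if_neg (by omega), if_neg (by omega), if_neg (by omega), if_neg (by omega), if_pos (by omega)] <;> omega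

lemma WA_7 (t j : ℕ) (hp0 : 2 ≤ t) (h1 : 4 * t ≤ j + 2) (h2 : j + 1 < 4 * t) :
    WA t j = 8 * t + 1 := by
  unfold WA; rw [if_neg (by omega), if_neg (by omega), if_neg (by omega), if_neg (by omega), if_neg (by omega), if_neg (by omega), if_neg (by omega), if_pos (by omega)] <;> omega

lemma WA_8 (t j : ℕ) (hp0 : 2 ≤ t) (h1 : 4 * t ≤ j + 1) (h2 : j < 4 * t) :
    WA t j = 6 * t + 2 := by
  unfold WA; rw [if_neg (by omega), if_neg (by omega), if_neg (by omega), if_neg (by omega), if_neg (by omega), if_neg (by omega), if_neg (by omega), if_neg (by omega)] <;> omega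

lemma clA (t : ℕ) (hp0 : 2 ≤ t) (v : ℕ) (h1 : 1 ≤ v) (h2 : v ≤ 2 * (4 * t) + 2) :
    (2 * t + 2) = v ∨ (6 * t + 1) = v ∨ ∃ j < (4 * t), UA t j = v ∨ WA t j = v := by
  by_cases c0 : v ≤ 1
  · obtain ⟨j, hj⟩ : ∃ j, j = (4 * t - (5)) := ⟨_, rfl⟩
    have a0 := UA_4 t (j) hp0 (by omega) (by omega)
    exact Or.inr (Or.inr ⟨j, by omega, Or.inl (by omega)⟩)
  by_cases c1 : v ≤ 2
  · obtain ⟨j, hj⟩ : ∃ j, j = (4 * t - (4)) := ⟨_, rfl⟩
    have a0 := UA_5 t (j) hp0 (by omega) (by omega)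
    exact Or.inr (Or.inr ⟨j, by omega, Or.inl (by omega)⟩)
  by_cases c2 : v ≤ 3
  · obtain ⟨j, hj⟩ : ∃ j, j = (4 * t - (3)) := ⟨_, rfl⟩
    have a0 := UA_6 t (j) hp0 (by omega) (by omega)
    exact Or.inr (Or.inr ⟨j, by omega, Or.inl (by omega)⟩)
  by_cases c3 : v ≤ 2 * t + 1
  · by_cases d0 : (v - (4)) % 2 = 0
    · obtain ⟨j, hj⟩ : ∃ j, j = (0) + (v - (4)) / 2 := ⟨_, rfl⟩
      have a0 := UA_0 t (j) hp0 (by omega) (by omega)
      exact Or.inr (Or.inr ⟨j, by omega, Or.inl (by omega)⟩)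
    obtain ⟨j, hj⟩ : ∃ j, j = (t - (1)) + (v - (5)) / 2 := ⟨_, rfl⟩
    have a0 := UA_1 t (j) hp0 (by omega) (by omega)
    exact Or.inr (Or.inr ⟨j, by omega, Or.inl (by omega)⟩)
  by_cases c4 : v ≤ 2 * t + 2
  · exact Or.inl (by omega)
  by_cases c5 : v + 1 ≤ 4 * t
  · by_cases d0 : (v - (2 * t + 3)) % 2 = 0
    · obtain ⟨j, hj⟩ : ∃ j, j = (2 * t - (2)) + (v - (2 * t + 3)) / 2 := ⟨_, rfl⟩
      have a0 := UA_2 t (j) hp0 (by omega) (by omega)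
      exact Or.inr (Or.inr ⟨j, by omega, Or.inl (by omega)⟩)
    obtain ⟨j, hj⟩ : ∃ j, j = (3 * t - (3)) + (v - (2 * t + 4)) / 2 := ⟨_, rfl⟩
    have a0 := UA_3 t (j) hp0 (by omega) (by omega)
    exact Or.inr (Or.inr ⟨j, by omega, Or.inl (by omega)⟩)
  by_cases c6 : v ≤ 4 * t
  · obtain ⟨j, hj⟩ : ∃ j, j = (4 * t - (2)) := ⟨_, rfl⟩
    have a0 := UA_7 t (j) hp0 (by omega) (by omega)
    exact Or.inr (Or.inr ⟨j, by omega, Or.inl (by omega)⟩)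
  by_cases c7 : v ≤ 4 * t + 1
  · obtain ⟨j, hj⟩ : ∃ j, j = (4 * t - (3)) := ⟨_, rfl⟩
    have a0 := WA_6 t (j) hp0 (by omega) (by omega)
    exact Or.inr (Or.inr ⟨j, by omega, Or.inr (by omega)⟩)
  by_cases c8 : v ≤ 5 * t
  · obtain ⟨j, hj⟩ : ∃ j, j = (7 * t - (v + 2)) := ⟨_, rfl⟩
    have a0 := WA_2 t (j) hp0 (by omega) (by omega)
    exact Or.inr (Or.inr ⟨j, by omega, Or.inr (by omega)⟩)
  by_cases c9 : v + 1 ≤ 6 * t
  · obtain ⟨j, hj⟩ : ∃ j, j = (6 * t - (v + 1)) := ⟨_, rfl⟩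
    have a0 := WA_0 t (j) hp0 (by omega) (by omega)
    exact Or.inr (Or.inr ⟨j, by omega, Or.inr (by omega)⟩)
  by_cases c10 : v ≤ 6 * t
  · obtain ⟨j, hj⟩ : ∃ j, j = (4 * t - (1)) := ⟨_, rfl⟩
    have a0 := UA_8 t (j) hp0 (by omega) (by omega)
    exact Or.inr (Or.inr ⟨j, by omega, Or.inl (by omega)⟩)
  by_cases c11 : v ≤ 6 * t + 1
  · exact Or.inr (Or.inl (by omega))
  by_cases c12 : v ≤ 6 * t + 2
  · obtain ⟨j, hj⟩ : ∃ j, j = (4 * t - (1)) := ⟨_, rfl⟩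
    have a0 := WA_8 t (j) hp0 (by omega) (by omega)
    exact Or.inr (Or.inr ⟨j, by omega, Or.inr (by omega)⟩)
  by_cases c13 : v ≤ 7 * t
  · obtain ⟨j, hj⟩ : ∃ j, j = (10 * t - (v + 3)) := ⟨_, rfl⟩
    have a0 := WA_3 t (j) hp0 (by omega) (by omega)
    exact Or.inr (Or.inr ⟨j, by omega, Or.inr (by omega)⟩)
  by_cases c14 : v ≤ 7 * t + 1
  · obtain ⟨j, hj⟩ : ∃ j, j = (4 * t - (5)) := ⟨_, rfl⟩
    have a0 := WA_4 t (j) hp0 (by omega) (by omega)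
    exact Or.inr (Or.inr ⟨j, by omega, Or.inr (by omega)⟩)
  by_cases c15 : v ≤ 8 * t
  · obtain ⟨j, hj⟩ : ∃ j, j = (9 * t - (v + 1)) := ⟨_, rfl⟩
    have a0 := WA_1 t (j) hp0 (by omega) (by omega)
    exact Or.inr (Or.inr ⟨j, by omega, Or.inr (by omega)⟩)
  by_cases c16 : v ≤ 8 * t + 1
  · obtain ⟨j, hj⟩ : ∃ j, j = (4 * t - (2)) := ⟨_, rfl⟩
    have a0 := WA_7 t (j) hp0 (by omega) (by omega)
    exact Or.inr (Or.inr ⟨j, by omega, Or.inr (by omega)⟩)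
  obtain ⟨j, hj⟩ : ∃ j, j = (4 * t - (4)) := ⟨_, rfl⟩
  have a0 := WA_5 t (j) hp0 (by omega) (by omega)
  exact Or.inr (Or.inr ⟨j, by omega, Or.inr (by omega)⟩)

lemma csA (t : ℕ) (hp0 : 2 ≤ t) (v : ℕ) (h1 : (2 * t + 3) ≤ v) (h2 : v ≤ (2 * t + 3) + 3 * (4 * t)) :
    (2 * t + 2) + (6 * t + 1) = v ∨ ∃ j < (4 * t), (2 * t + 2) + UA t j = v ∨ (6 * t + 1) + WA t j = v ∨ UA t j + WA t j = v := by
  by_cases c0 : v ≤ 2 * t + 3
  · obtain ⟨j, hj⟩ : ∃ j, j = (4 * t - (5)) := ⟨_, rfl⟩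
    have a0 := UA_4 t (j) hp0 (by omega) (by omega)
    exact Or.inr ⟨j, by omega, Or.inl (by omega)⟩
  by_cases c1 : v ≤ 2 * t + 4
  · obtain ⟨j, hj⟩ : ∃ j, j = (4 * t - (4)) := ⟨_, rfl⟩
    have a0 := UA_5 t (j) hp0 (by omega) (by omega)
    exact Or.inr ⟨j, by omega, Or.inl (by omega)⟩
  by_cases c2 : v ≤ 2 * t + 5
  · obtain ⟨j, hj⟩ : ∃ j, j = (4 * t - (3)) := ⟨_, rfl⟩
    have a0 := UA_6 t (j) hp0 (by omega) (by omega)
    exact Or.inr ⟨j, by omega, Or.inl (by omega)⟩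
  by_cases c3 : v ≤ 4 * t + 3
  · by_cases d0 : (v - (2 * t + 6)) % 2 = 0
    · obtain ⟨j, hj⟩ : ∃ j, j = (0) + (v - (2 * t + 6)) / 2 := ⟨_, rfl⟩
      have a0 := UA_0 t (j) hp0 (by omega) (by omega)
      exact Or.inr ⟨j, by omega, Or.inl (by omega)⟩
    obtain ⟨j, hj⟩ : ∃ j, j = (t - (1)) + (v - (2 * t + 7)) / 2 := ⟨_, rfl⟩
    have a0 := UA_1 t (j) hp0 (by omega) (by omega)
    exact Or.inr ⟨j, by omega, Or.inl (by omega)⟩
  by_cases c4 : v ≤ 4 * t + 4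
  · obtain ⟨j, hj⟩ : ∃ j, j = (4 * t - (3)) := ⟨_, rfl⟩
    have a0 := UA_6 t (j) hp0 (by omega) (by omega)
    have a1 := WA_6 t (j) hp0 (by omega) (by omega)
    exact Or.inr ⟨j, by omega, Or.inr (Or.inr (by omega))⟩
  by_cases c5 : v ≤ 6 * t + 1
  · by_cases d0 : (v - (4 * t + 5)) % 2 = 0
    · obtain ⟨j, hj⟩ : ∃ j, j = (2 * t - (2)) + (v - (4 * t + 5)) / 2 := ⟨_, rfl⟩
      have a0 := UA_2 t (j) hp0 (by omega) (by omega)
      exact Or.inr ⟨j, by omega, Or.inl (by omega)⟩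
    obtain ⟨j, hj⟩ : ∃ j, j = (3 * t - (3)) + (v - (4 * t + 6)) / 2 := ⟨_, rfl⟩
    have a0 := UA_3 t (j) hp0 (by omega) (by omega)
    exact Or.inr ⟨j, by omega, Or.inl (by omega)⟩
  by_cases c6 : v ≤ 6 * t + 2
  · obtain ⟨j, hj⟩ : ∃ j, j = (4 * t - (2)) := ⟨_, rfl⟩
    have a0 := UA_7 t (j) hp0 (by omega) (by omega)
    exact Or.inr ⟨j, by omega, Or.inl (by omega)⟩
  by_cases c7 : v ≤ 7 * t + 1
  · obtain ⟨j, hj⟩ : ∃ j, j = (v - (6 * t + 3)) := ⟨_, rfl⟩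
    have a0 := UA_0 t (j) hp0 (by omega) (by omega)
    have a1 := WA_0 t (j) hp0 (by omega) (by omega)
    exact Or.inr ⟨j, by omega, Or.inr (Or.inr (by omega))⟩
  by_cases c8 : v ≤ 7 * t + 2
  · obtain ⟨j, hj⟩ : ∃ j, j = (4 * t - (5)) := ⟨_, rfl⟩
    have a0 := UA_4 t (j) hp0 (by omega) (by omega)
    have a1 := WA_4 t (j) hp0 (by omega) (by omega)
    exact Or.inr ⟨j, by omega, Or.inr (Or.inr (by omega))⟩
  by_cases c9 : v ≤ 8 * t + 1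
  · obtain ⟨j, hj⟩ : ∃ j, j = (v - (5 * t + 5)) := ⟨_, rfl⟩
    have a0 := UA_2 t (j) hp0 (by omega) (by omega)
    have a1 := WA_2 t (j) hp0 (by omega) (by omega)
    exact Or.inr ⟨j, by omega, Or.inr (Or.inr (by omega))⟩
  by_cases c10 : v ≤ 8 * t + 2
  · obtain ⟨j, hj⟩ : ∃ j, j = (4 * t - (1)) := ⟨_, rfl⟩
    have a0 := UA_8 t (j) hp0 (by omega) (by omega)
    exact Or.inr ⟨j, by omega, Or.inl (by omega)⟩
  by_cases c11 : v ≤ 8 * t + 3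
  · exact Or.inl (by omega)
  by_cases c12 : v ≤ 8 * t + 4
  · obtain ⟨j, hj⟩ : ∃ j, j = (4 * t - (4)) := ⟨_, rfl⟩
    have a0 := UA_5 t (j) hp0 (by omega) (by omega)
    have a1 := WA_5 t (j) hp0 (by omega) (by omega)
    exact Or.inr ⟨j, by omega, Or.inr (Or.inr (by omega))⟩
  by_cases c13 : v ≤ 9 * t + 3
  · obtain ⟨j, hj⟩ : ∃ j, j = (v - (7 * t + 6)) := ⟨_, rfl⟩
    have a0 := UA_1 t (j) hp0 (by omega) (by omega)
    have a1 := WA_1 t (j) hp0 (by omega) (by omega)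
    exact Or.inr ⟨j, by omega, Or.inr (Or.inr (by omega))⟩
  by_cases c14 : v ≤ 10 * t + 1
  · obtain ⟨j, hj⟩ : ∃ j, j = (v - (6 * t + 7)) := ⟨_, rfl⟩
    have a0 := UA_3 t (j) hp0 (by omega) (by omega)
    have a1 := WA_3 t (j) hp0 (by omega) (by omega)
    exact Or.inr ⟨j, by omega, Or.inr (Or.inr (by omega))⟩
  by_cases c15 : v ≤ 10 * t + 2
  · obtain ⟨j, hj⟩ : ∃ j, j = (4 * t - (3)) := ⟨_, rfl⟩
    have a0 := WA_6 t (j) hp0 (by omega) (by omega)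
    exact Or.inr ⟨j, by omega, Or.inr (Or.inl (by omega))⟩
  by_cases c16 : v ≤ 11 * t + 1
  · obtain ⟨j, hj⟩ : ∃ j, j = (13 * t - (v + 1)) := ⟨_, rfl⟩
    have a0 := WA_2 t (j) hp0 (by omega) (by omega)
    exact Or.inr ⟨j, by omega, Or.inr (Or.inl (by omega))⟩
  by_cases c17 : v ≤ 12 * t
  · obtain ⟨j, hj⟩ : ∃ j, j = (12 * t - (v)) := ⟨_, rfl⟩
    have a0 := WA_0 t (j) hp0 (by omega) (by omega)
    exact Or.inr ⟨j, by omega, Or.inr (Or.inl (by omega))⟩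
  by_cases c18 : v ≤ 12 * t + 1
  · obtain ⟨j, hj⟩ : ∃ j, j = (4 * t - (2)) := ⟨_, rfl⟩
    have a0 := UA_7 t (j) hp0 (by omega) (by omega)
    have a1 := WA_7 t (j) hp0 (by omega) (by omega)
    exact Or.inr ⟨j, by omega, Or.inr (Or.inr (by omega))⟩
  by_cases c19 : v ≤ 12 * t + 2
  · obtain ⟨j, hj⟩ : ∃ j, j = (4 * t - (1)) := ⟨_, rfl⟩
    have a0 := UA_8 t (j) hp0 (by omega) (by omega)
    have a1 := WA_8 t (j) hp0 (by omega) (by omega)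
    exact Or.inr ⟨j, by omega, Or.inr (Or.inr (by omega))⟩
  by_cases c20 : v ≤ 12 * t + 3
  · obtain ⟨j, hj⟩ : ∃ j, j = (4 * t - (1)) := ⟨_, rfl⟩
    have a0 := WA_8 t (j) hp0 (by omega) (by omega)
    exact Or.inr ⟨j, by omega, Or.inr (Or.inl (by omega))⟩
  by_cases c21 : v ≤ 13 * t + 1
  · obtain ⟨j, hj⟩ : ∃ j, j = (16 * t - (v + 2)) := ⟨_, rfl⟩
    have a0 := WA_3 t (j) hp0 (by omega) (by omega)
    exact Or.inr ⟨j, by omega, Or.inr (Or.inl (by omega))⟩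
  by_cases c22 : v ≤ 13 * t + 2
  · obtain ⟨j, hj⟩ : ∃ j, j = (4 * t - (5)) := ⟨_, rfl⟩
    have a0 := WA_4 t (j) hp0 (by omega) (by omega)
    exact Or.inr ⟨j, by omega, Or.inr (Or.inl (by omega))⟩
  by_cases c23 : v ≤ 14 * t + 1
  · obtain ⟨j, hj⟩ : ∃ j, j = (15 * t - (v)) := ⟨_, rfl⟩
    have a0 := WA_1 t (j) hp0 (by omega) (by omega)
    exact Or.inr ⟨j, by omega, Or.inr (Or.inl (by omega))⟩
  by_cases c24 : v ≤ 14 * t + 2
  · obtain ⟨j, hj⟩ : ∃ j, j = (4 * t - (2)) := ⟨_, rfl⟩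
    have a0 := WA_7 t (j) hp0 (by omega) (by omega)
    exact Or.inr ⟨j, by omega, Or.inr (Or.inl (by omega))⟩
  obtain ⟨j, hj⟩ : ∃ j, j = (4 * t - (4)) := ⟨_, rfl⟩
  have a0 := WA_5 t (j) hp0 (by omega) (by omega)
  exact Or.inr ⟨j, by omega, Or.inr (Or.inl (by omega))⟩

def UB (t j : ℕ) : ℕ :=
  if j < t then (2 * j + 4) else
  if j + 1 < 2 * t then (2 * j + 5 - (2 * t)) else
  if j + 2 < 3 * t then (2 * j + 7 - (2 * t)) else
  if j + 3 < 4 * t then (2 * j + 8 - (4 * t)) else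
  if j + 2 < 4 * t then (1) else
  if j + 1 < 4 * t then (2) else
  if j < 4 * t then (3) else
  if j < 4 * t + 1 then (4 * t + 2) else
  (6 * t + 3)

lemma UB_0 (t j : ℕ) (hp0 : 1 ≤ t) (h1 : 0 ≤ j) (h2 : j < t) :
    UB t j = 2 * j + 4 := by
  unfold UB; rw [if_pos (by omega)] <;> omega

lemma UB_1 (t j : ℕ) (hp0 : 1 ≤ t) (h1 : t ≤ j) (h2 : j + 1 < 2 * t) :
    UB t j + 2 * t = 2 * j + 5 := by
  unfold UB; rw [if_neg (by omega), if_pos (by omega)] <;> omega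

lemma UB_2 (t j : ℕ) (hp0 : 1 ≤ t) (h1 : 2 * t ≤ j + 1) (h2 : j + 2 < 3 * t) :
    UB t j + 2 * t = 2 * j + 7 := by
  unfold UB; rw [if_neg (by omega), if_neg (by omega), if_pos (by omega)] <;> omega

lemma UB_3 (t j : ℕ) (hp0 : 1 ≤ t) (h1 : 3 * t ≤ j + 2) (h2 : j + 3 < 4 * t) :
    UB t j + 4 * t = 2 * j + 8 := by
  unfold UB; rw [if_neg (by omega), if_neg (by omega), if_neg (by omega), if_pos (by omega)] <;> omega

lemma UB_4 (t j : ℕ) (hp0 : 1 ≤ t) (h1 : 4 * t ≤ j + 3) (h2 : j + 2 < 4 * t) :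
    UB t j = 1 := by
  unfold UB; rw [if_neg (by omega), if_neg (by omega), if_neg (by omega), if_neg (by omega), if_pos (by omega)] <;> omega

lemma UB_5 (t j : ℕ) (hp0 : 1 ≤ t) (h1 : 4 * t ≤ j + 2) (h2 : j + 1 < 4 * t) :
    UB t j = 2 := by
  unfold UB; rw [if_neg (by omega), if_neg (by omega), if_neg (by omega), if_neg (by omega), if_neg (by omega), if_pos (by omega)] <;> omega

lemma UB_6 (t j : ℕ) (hp0 : 1 ≤ t) (h1 : 4 * t ≤ j + 1) (h2 : j < 4 * t) :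
    UB t j = 3 := by
  unfold UB; rw [if_neg (by omega), if_neg (by omega), if_neg (by omega), if_neg (by omega), if_neg (by omega), if_neg (by omega), if_pos (by omega)] <;> omega

lemma UB_7 (t j : ℕ) (hp0 : 1 ≤ t) (h1 : 4 * t ≤ j) (h2 : j < 4 * t + 1) :
    UB t j = 4 * t + 2 := by
  unfold UB; rw [if_neg (by omega), if_neg (by omega), if_neg (by omega), if_neg (by omega), if_neg (by omega), if_neg (by omega), if_neg (by omega), if_pos (by omega)] <;> omega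

lemma UB_8 (t j : ℕ) (hp0 : 1 ≤ t) (h1 : 4 * t + 1 ≤ j) (h2 : j < 4 * t + 2) :
    UB t j = 6 * t + 3 := by
  unfold UB; rw [if_neg (by omega), if_neg (by omega), if_neg (by omega), if_neg (by omega), if_neg (by omega), if_neg (by omega), if_neg (by omega), if_neg (by omega)] <;> omega

def WB (t j : ℕ) : ℕ :=
  if j < t then (6 * t + 2 - (j)) else
  if j + 1 < 2 * t then (9 * t + 4 - (j)) else
  if j + 2 < 3 * t then (7 * t + 1 - (j)) else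
  if j + 3 < 4 * t then (10 * t + 2 - (j)) else
  if j + 2 < 4 * t then (7 * t + 5) else
  if j + 1 < 4 * t then (8 * t + 6) else
  if j < 4 * t then (4 * t + 3) else
  if j < 4 * t + 1 then (8 * t + 5) else
  (6 * t + 5)

lemma WB_0 (t j : ℕ) (hp0 : 1 ≤ t) (h1 : 0 ≤ j) (h2 : j < t) :
    WB t j + j = 6 * t + 2 := by
  unfold WB; rw [if_pos (by omega)] <;> omega

lemma WB_1 (t j : ℕ) (hp0 : 1 ≤ t) (h1 : t ≤ j) (h2 : j + 1 < 2 * t) :
    WB t j + j = 9 * t + 4 := by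
  unfold WB; rw [if_neg (by omega), if_pos (by omega)] <;> omega

lemma WB_2 (t j : ℕ) (hp0 : 1 ≤ t) (h1 : 2 * t ≤ j + 1) (h2 : j + 2 < 3 * t) :
    WB t j + j = 7 * t + 1 := by
  unfold WB; rw [if_neg (by omega), if_neg (by omega), if_pos (by omega)] <;> omega

lemma WB_3 (t j : ℕ) (hp0 : 1 ≤ t) (h1 : 3 * t ≤ j + 2) (h2 : j + 3 < 4 * t) :
    WB t j + j = 10 * t + 2 := by
  unfold WB; rw [if_neg (by omega), if_neg (by omega), if_neg (by omega), if_pos (by omega)] <;> omega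

lemma WB_4 (t j : ℕ) (hp0 : 1 ≤ t) (h1 : 4 * t ≤ j + 3) (h2 : j + 2 < 4 * t) :
    WB t j = 7 * t + 5 := by
  unfold WB; rw [if_neg (by omega), if_neg (by omega), if_neg (by omega), if_neg (by omega), if_pos (by omega)] <;> omega

lemma WB_5 (t j : ℕ) (hp0 : 1 ≤ t) (h1 : 4 * t ≤ j + 2) (h2 : j + 1 < 4 * t) :
    WB t j = 8 * t + 6 := by
  unfold WB; rw [if_neg (by omega), if_neg (by omega), if_neg (by omega), if_neg (by omega), if_neg (by omega), if_pos (by omega)] <;> omega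

lemma WB_6 (t j : ℕ) (hp0 : 1 ≤ t) (h1 : 4 * t ≤ j + 1) (h2 : j < 4 * t) :
    WB t j = 4 * t + 3 := by
  unfold WB; rw [if_neg (by omega), if_neg (by omega), if_neg (by omega), if_neg (by omega), if_neg (by omega), if_neg (by omega), if_pos (by omega)] <;> omega

lemma WB_7 (t j : ℕ) (hp0 : 1 ≤ t) (h1 : 4 * t ≤ j) (h2 : j < 4 * t + 1) :
    WB t j = 8 * t + 5 := by
  unfold WB; rw [if_neg (by omega), if_neg (by omega), if_neg (by omega), if_neg (by omega), if_neg (by omega), if_neg (by omega), if_neg (by omega), if_pos (by omega)] <;> omega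

lemma WB_8 (t j : ℕ) (hp0 : 1 ≤ t) (h1 : 4 * t + 1 ≤ j) (h2 : j < 4 * t + 2) :
    WB t j = 6 * t + 5 := by
  unfold WB; rw [if_neg (by omega), if_neg (by omega), if_neg (by omega), if_neg (by omega), if_neg (by omega), if_neg (by omega), if_neg (by omega), if_neg (by omega)] <;> omega

lemma clB (t : ℕ) (hp0 : 1 ≤ t) (v : ℕ) (h1 : 1 ≤ v) (h2 : v ≤ 2 * (4 * t + 2) + 2) :
    (2 * t + 3) = v ∨ (6 * t + 4) = v ∨ ∃ j < (4 * t + 2), UB t j = v ∨ WB t j = v := by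
  by_cases c0 : v ≤ 1
  · obtain ⟨j, hj⟩ : ∃ j, j = (4 * t - (3)) := ⟨_, rfl⟩
    have a0 := UB_4 t (j) hp0 (by omega) (by omega)
    exact Or.inr (Or.inr ⟨j, by omega, Or.inl (by omega)⟩)
  by_cases c1 : v ≤ 2
  · obtain ⟨j, hj⟩ : ∃ j, j = (4 * t - (2)) := ⟨_, rfl⟩
    have a0 := UB_5 t (j) hp0 (by omega) (by omega)
    exact Or.inr (Or.inr ⟨j, by omega, Or.inl (by omega)⟩)
  by_cases c2 : v ≤ 3
  · obtain ⟨j, hj⟩ : ∃ j, j = (4 * t - (1)) := ⟨_, rfl⟩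
    have a0 := UB_6 t (j) hp0 (by omega) (by omega)
    exact Or.inr (Or.inr ⟨j, by omega, Or.inl (by omega)⟩)
  by_cases c3 : v ≤ 2 * t + 2
  · by_cases d0 : (v - (4)) % 2 = 0
    · obtain ⟨j, hj⟩ : ∃ j, j = (0) + (v - (4)) / 2 := ⟨_, rfl⟩
      have a0 := UB_0 t (j) hp0 (by omega) (by omega)
      exact Or.inr (Or.inr ⟨j, by omega, Or.inl (by omega)⟩)
    obtain ⟨j, hj⟩ : ∃ j, j = (t) + (v - (5)) / 2 := ⟨_, rfl⟩
    have a0 := UB_1 t (j) hp0 (by omega) (by omega)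
    exact Or.inr (Or.inr ⟨j, by omega, Or.inl (by omega)⟩)
  by_cases c4 : v ≤ 2 * t + 3
  · exact Or.inl (by omega)
  by_cases c5 : v ≤ 4 * t + 1
  · by_cases d0 : (v - (2 * t + 4)) % 2 = 0
    · obtain ⟨j, hj⟩ : ∃ j, j = (3 * t - (2)) + (v - (2 * t + 4)) / 2 := ⟨_, rfl⟩
      have a0 := UB_3 t (j) hp0 (by omega) (by omega)
      exact Or.inr (Or.inr ⟨j, by omega, Or.inl (by omega)⟩)
    obtain ⟨j, hj⟩ : ∃ j, j = (2 * t - (1)) + (v - (2 * t + 5)) / 2 := ⟨_, rfl⟩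
    have a0 := UB_2 t (j) hp0 (by omega) (by omega)
    exact Or.inr (Or.inr ⟨j, by omega, Or.inl (by omega)⟩)
  by_cases c6 : v ≤ 4 * t + 2
  · obtain ⟨j, hj⟩ : ∃ j, j = (4 * t) := ⟨_, rfl⟩
    have a0 := UB_7 t (j) hp0 (by omega) (by omega)
    exact Or.inr (Or.inr ⟨j, by omega, Or.inl (by omega)⟩)
  by_cases c7 : v ≤ 4 * t + 3
  · obtain ⟨j, hj⟩ : ∃ j, j = (4 * t - (1)) := ⟨_, rfl⟩
    have a0 := WB_6 t (j) hp0 (by omega) (by omega)
    exact Or.inr (Or.inr ⟨j, by omega, Or.inr (by omega)⟩)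
  by_cases c8 : v ≤ 5 * t + 2
  · obtain ⟨j, hj⟩ : ∃ j, j = (7 * t + 1 - (v)) := ⟨_, rfl⟩
    have a0 := WB_2 t (j) hp0 (by omega) (by omega)
    exact Or.inr (Or.inr ⟨j, by omega, Or.inr (by omega)⟩)
  by_cases c9 : v ≤ 6 * t + 2
  · obtain ⟨j, hj⟩ : ∃ j, j = (6 * t + 2 - (v)) := ⟨_, rfl⟩
    have a0 := WB_0 t (j) hp0 (by omega) (by omega)
    exact Or.inr (Or.inr ⟨j, by omega, Or.inr (by omega)⟩)
  by_cases c10 : v ≤ 6 * t + 3
  · obtain ⟨j, hj⟩ : ∃ j, j = (4 * t + 1) := ⟨_, rfl⟩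
    have a0 := UB_8 t (j) hp0 (by omega) (by omega)
    exact Or.inr (Or.inr ⟨j, by omega, Or.inl (by omega)⟩)
  by_cases c11 : v ≤ 6 * t + 4
  · exact Or.inr (Or.inl (by omega))
  by_cases c12 : v ≤ 6 * t + 5
  · obtain ⟨j, hj⟩ : ∃ j, j = (4 * t + 1) := ⟨_, rfl⟩
    have a0 := WB_8 t (j) hp0 (by omega) (by omega)
    exact Or.inr (Or.inr ⟨j, by omega, Or.inr (by omega)⟩)
  by_cases c13 : v ≤ 7 * t + 4
  · obtain ⟨j, hj⟩ : ∃ j, j = (10 * t + 2 - (v)) := ⟨_, rfl⟩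
    have a0 := WB_3 t (j) hp0 (by omega) (by omega)
    exact Or.inr (Or.inr ⟨j, by omega, Or.inr (by omega)⟩)
  by_cases c14 : v ≤ 7 * t + 5
  · obtain ⟨j, hj⟩ : ∃ j, j = (4 * t - (3)) := ⟨_, rfl⟩
    have a0 := WB_4 t (j) hp0 (by omega) (by omega)
    exact Or.inr (Or.inr ⟨j, by omega, Or.inr (by omega)⟩)
  by_cases c15 : v ≤ 8 * t + 4
  · obtain ⟨j, hj⟩ : ∃ j, j = (9 * t + 4 - (v)) := ⟨_, rfl⟩
    have a0 := WB_1 t (j) hp0 (by omega) (by omega)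
    exact Or.inr (Or.inr ⟨j, by omega, Or.inr (by omega)⟩)
  by_cases c16 : v ≤ 8 * t + 5
  · obtain ⟨j, hj⟩ : ∃ j, j = (4 * t) := ⟨_, rfl⟩
    have a0 := WB_7 t (j) hp0 (by omega) (by omega)
    exact Or.inr (Or.inr ⟨j, by omega, Or.inr (by omega)⟩)
  obtain ⟨j, hj⟩ : ∃ j, j = (4 * t - (2)) := ⟨_, rfl⟩
  have a0 := WB_5 t (j) hp0 (by omega) (by omega)
  exact Or.inr (Or.inr ⟨j, by omega, Or.inr (by omega)⟩)

lemma csB (t : ℕ) (hp0 : 1 ≤ t) (v : ℕ) (h1 : (2 * t + 4) ≤ v) (h2 : v ≤ (2 * t + 4) + 3 * (4 * t + 2)) :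
    (2 * t + 3) + (6 * t + 4) = v ∨ ∃ j < (4 * t + 2), (2 * t + 3) + UB t j = v ∨ (6 * t + 4) + WB t j = v ∨ UB t j + WB t j = v := by
  by_cases c0 : v ≤ 2 * t + 4
  · obtain ⟨j, hj⟩ : ∃ j, j = (4 * t - (3)) := ⟨_, rfl⟩
    have a0 := UB_4 t (j) hp0 (by omega) (by omega)
    exact Or.inr ⟨j, by omega, Or.inl (by omega)⟩
  by_cases c1 : v ≤ 2 * t + 5
  · obtain ⟨j, hj⟩ : ∃ j, j = (4 * t - (2)) := ⟨_, rfl⟩
    have a0 := UB_5 t (j) hp0 (by omega) (by omega)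
    exact Or.inr ⟨j, by omega, Or.inl (by omega)⟩
  by_cases c2 : v ≤ 2 * t + 6
  · obtain ⟨j, hj⟩ : ∃ j, j = (4 * t - (1)) := ⟨_, rfl⟩
    have a0 := UB_6 t (j) hp0 (by omega) (by omega)
    exact Or.inr ⟨j, by omega, Or.inl (by omega)⟩
  by_cases c3 : v ≤ 4 * t + 5
  · by_cases d0 : (v - (2 * t + 7)) % 2 = 0
    · obtain ⟨j, hj⟩ : ∃ j, j = (0) + (v - (2 * t + 7)) / 2 := ⟨_, rfl⟩
      have a0 := UB_0 t (j) hp0 (by omega) (by omega)
      exact Or.inr ⟨j, by omega, Or.inl (by omega)⟩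
    obtain ⟨j, hj⟩ : ∃ j, j = (t) + (v - (2 * t + 8)) / 2 := ⟨_, rfl⟩
    have a0 := UB_1 t (j) hp0 (by omega) (by omega)
    exact Or.inr ⟨j, by omega, Or.inl (by omega)⟩
  by_cases c4 : v ≤ 4 * t + 6
  · obtain ⟨j, hj⟩ : ∃ j, j = (4 * t - (1)) := ⟨_, rfl⟩
    have a0 := UB_6 t (j) hp0 (by omega) (by omega)
    have a1 := WB_6 t (j) hp0 (by omega) (by omega)
    exact Or.inr ⟨j, by omega, Or.inr (Or.inr (by omega))⟩
  by_cases c5 : v ≤ 6 * t + 4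
  · by_cases d0 : (v - (4 * t + 7)) % 2 = 0
    · obtain ⟨j, hj⟩ : ∃ j, j = (3 * t - (2)) + (v - (4 * t + 7)) / 2 := ⟨_, rfl⟩
      have a0 := UB_3 t (j) hp0 (by omega) (by omega)
      exact Or.inr ⟨j, by omega, Or.inl (by omega)⟩
    obtain ⟨j, hj⟩ : ∃ j, j = (2 * t - (1)) + (v - (4 * t + 8)) / 2 := ⟨_, rfl⟩
    have a0 := UB_2 t (j) hp0 (by omega) (by omega)
    exact Or.inr ⟨j, by omega, Or.inl (by omega)⟩
  by_cases c6 : v ≤ 6 * t + 5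
  · obtain ⟨j, hj⟩ : ∃ j, j = (4 * t) := ⟨_, rfl⟩
    have a0 := UB_7 t (j) hp0 (by omega) (by omega)
    exact Or.inr ⟨j, by omega, Or.inl (by omega)⟩
  by_cases c7 : v ≤ 7 * t + 5
  · obtain ⟨j, hj⟩ : ∃ j, j = (v - (6 * t + 6)) := ⟨_, rfl⟩
    have a0 := UB_0 t (j) hp0 (by omega) (by omega)
    have a1 := WB_0 t (j) hp0 (by omega) (by omega)
    exact Or.inr ⟨j, by omega, Or.inr (Or.inr (by omega))⟩
  by_cases c8 : v ≤ 7 * t + 6
  · obtain ⟨j, hj⟩ : ∃ j, j = (4 * t - (3)) := ⟨_, rfl⟩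
    have a0 := UB_4 t (j) hp0 (by omega) (by omega)
    have a1 := WB_4 t (j) hp0 (by omega) (by omega)
    exact Or.inr ⟨j, by omega, Or.inr (Or.inr (by omega))⟩
  by_cases c9 : v ≤ 8 * t + 5
  · obtain ⟨j, hj⟩ : ∃ j, j = (v - (5 * t + 8)) := ⟨_, rfl⟩
    have a0 := UB_2 t (j) hp0 (by omega) (by omega)
    have a1 := WB_2 t (j) hp0 (by omega) (by omega)
    exact Or.inr ⟨j, by omega, Or.inr (Or.inr (by omega))⟩
  by_cases c10 : v ≤ 8 * t + 6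
  · obtain ⟨j, hj⟩ : ∃ j, j = (4 * t + 1) := ⟨_, rfl⟩
    have a0 := UB_8 t (j) hp0 (by omega) (by omega)
    exact Or.inr ⟨j, by omega, Or.inl (by omega)⟩
  by_cases c11 : v ≤ 8 * t + 7
  · exact Or.inl (by omega)
  by_cases c12 : v ≤ 8 * t + 8
  · obtain ⟨j, hj⟩ : ∃ j, j = (4 * t - (2)) := ⟨_, rfl⟩
    have a0 := UB_5 t (j) hp0 (by omega) (by omega)
    have a1 := WB_5 t (j) hp0 (by omega) (by omega)
    exact Or.inr ⟨j, by omega, Or.inr (Or.inr (by omega))⟩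
  by_cases c13 : v ≤ 9 * t + 7
  · obtain ⟨j, hj⟩ : ∃ j, j = (v - (7 * t + 9)) := ⟨_, rfl⟩
    have a0 := UB_1 t (j) hp0 (by omega) (by omega)
    have a1 := WB_1 t (j) hp0 (by omega) (by omega)
    exact Or.inr ⟨j, by omega, Or.inr (Or.inr (by omega))⟩
  by_cases c14 : v ≤ 10 * t + 6
  · obtain ⟨j, hj⟩ : ∃ j, j = (v - (6 * t + 10)) := ⟨_, rfl⟩
    have a0 := UB_3 t (j) hp0 (by omega) (by omega)
    have a1 := WB_3 t (j) hp0 (by omega) (by omega)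
    exact Or.inr ⟨j, by omega, Or.inr (Or.inr (by omega))⟩
  by_cases c15 : v ≤ 10 * t + 7
  · obtain ⟨j, hj⟩ : ∃ j, j = (4 * t - (1)) := ⟨_, rfl⟩
    have a0 := WB_6 t (j) hp0 (by omega) (by omega)
    exact Or.inr ⟨j, by omega, Or.inr (Or.inl (by omega))⟩
  by_cases c16 : v ≤ 11 * t + 6
  · obtain ⟨j, hj⟩ : ∃ j, j = (13 * t + 5 - (v)) := ⟨_, rfl⟩
    have a0 := WB_2 t (j) hp0 (by omega) (by omega)
    exact Or.inr ⟨j, by omega, Or.inr (Or.inl (by omega))⟩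
  by_cases c17 : v ≤ 12 * t + 6
  · obtain ⟨j, hj⟩ : ∃ j, j = (12 * t + 6 - (v)) := ⟨_, rfl⟩
    have a0 := WB_0 t (j) hp0 (by omega) (by omega)
    exact Or.inr ⟨j, by omega, Or.inr (Or.inl (by omega))⟩
  by_cases c18 : v ≤ 12 * t + 7
  · obtain ⟨j, hj⟩ : ∃ j, j = (4 * t) := ⟨_, rfl⟩
    have a0 := UB_7 t (j) hp0 (by omega) (by omega)
    have a1 := WB_7 t (j) hp0 (by omega) (by omega)
    exact Or.inr ⟨j, by omega, Or.inr (Or.inr (by omega))⟩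
  by_cases c19 : v ≤ 12 * t + 8
  · obtain ⟨j, hj⟩ : ∃ j, j = (4 * t + 1) := ⟨_, rfl⟩
    have a0 := UB_8 t (j) hp0 (by omega) (by omega)
    have a1 := WB_8 t (j) hp0 (by omega) (by omega)
    exact Or.inr ⟨j, by omega, Or.inr (Or.inr (by omega))⟩
  by_cases c20 : v ≤ 12 * t + 9
  · obtain ⟨j, hj⟩ : ∃ j, j = (4 * t + 1) := ⟨_, rfl⟩
    have a0 := WB_8 t (j) hp0 (by omega) (by omega)
    exact Or.inr ⟨j, by omega, Or.inr (Or.inl (by omega))⟩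
  by_cases c21 : v ≤ 13 * t + 8
  · obtain ⟨j, hj⟩ : ∃ j, j = (16 * t + 6 - (v)) := ⟨_, rfl⟩
    have a0 := WB_3 t (j) hp0 (by omega) (by omega)
    exact Or.inr ⟨j, by omega, Or.inr (Or.inl (by omega))⟩
  by_cases c22 : v ≤ 13 * t + 9
  · obtain ⟨j, hj⟩ : ∃ j, j = (4 * t - (3)) := ⟨_, rfl⟩
    have a0 := WB_4 t (j) hp0 (by omega) (by omega)
    exact Or.inr ⟨j, by omega, Or.inr (Or.inl (by omega))⟩
  by_cases c23 : v ≤ 14 * t + 8
  · obtain ⟨j, hj⟩ : ∃ j, j = (15 * t + 8 - (v)) := ⟨_, rfl⟩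
    have a0 := WB_1 t (j) hp0 (by omega) (by omega)
    exact Or.inr ⟨j, by omega, Or.inr (Or.inl (by omega))⟩
  by_cases c24 : v ≤ 14 * t + 9
  · obtain ⟨j, hj⟩ : ∃ j, j = (4 * t) := ⟨_, rfl⟩
    have a0 := WB_7 t (j) hp0 (by omega) (by omega)
    exact Or.inr ⟨j, by omega, Or.inr (Or.inl (by omega))⟩
  obtain ⟨j, hj⟩ : ∃ j, j = (4 * t - (2)) := ⟨_, rfl⟩
  have a0 := WB_5 t (j) hp0 (by omega) (by omega)
  exact Or.inr ⟨j, by omega, Or.inr (Or.inl (by omega))⟩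

def UC (t j : ℕ) : ℕ :=
  if j < t then (2 * j + 2) else
  if j < 2 * t + 1 then (2 * j + 1 - (2 * t)) else
  if j < 3 * t + 1 then (10 * t + 7 - (j)) else
  if j < 4 * t + 2 then (17 * t + 12 - (j)) else
  if j < 5 * t + 3 then (t + 2 * j + 4) else
  if j < 6 * t + 3 then (2 * j + 3 - (t)) else
  if j < 7 * t + 3 then (2 * j + 5 - (t)) else
  if j < 8 * t + 3 then (2 * j + 4 - (3 * t)) else
  if j < 8 * t + 4 then (13 * t + 10) else
  (7 * t + 6)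

lemma UC_0 (t j : ℕ) (hp0 : 0 ≤ t) (h1 : 0 ≤ j) (h2 : j < t) :
    UC t j = 2 * j + 2 := by
  unfold UC; rw [if_pos (by omega)] <;> omega

lemma UC_1 (t j : ℕ) (hp0 : 0 ≤ t) (h1 : t ≤ j) (h2 : j < 2 * t + 1) :
    UC t j + 2 * t = 2 * j + 1 := by
  unfold UC; rw [if_neg (by omega), if_pos (by omega)] <;> omega

lemma UC_2 (t j : ℕ) (hp0 : 0 ≤ t) (h1 : 2 * t + 1 ≤ j) (h2 : j < 3 * t + 1) :
    UC t j + j = 10 * t + 7 := by
  unfold UC; rw [if_neg (by omega), if_neg (by omega), if_pos (by omega)] <;> omega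

lemma UC_3 (t j : ℕ) (hp0 : 0 ≤ t) (h1 : 3 * t + 1 ≤ j) (h2 : j < 4 * t + 2) :
    UC t j + j = 17 * t + 12 := by
  unfold UC; rw [if_neg (by omega), if_neg (by omega), if_neg (by omega), if_pos (by omega)] <;> omega

lemma UC_4 (t j : ℕ) (hp0 : 0 ≤ t) (h1 : 4 * t + 2 ≤ j) (h2 : j < 5 * t + 3) :
    UC t j = t + 2 * j + 4 := by
  unfold UC; rw [if_neg (by omega), if_neg (by omega), if_neg (by omega), if_neg (by omega), if_pos (by omega)] <;> omega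

lemma UC_5 (t j : ℕ) (hp0 : 0 ≤ t) (h1 : 5 * t + 3 ≤ j) (h2 : j < 6 * t + 3) :
    UC t j + t = 2 * j + 3 := by
  unfold UC; rw [if_neg (by omega), if_neg (by omega), if_neg (by omega), if_neg (by omega), if_neg (by omega), if_pos (by omega)] <;> omega

lemma UC_6 (t j : ℕ) (hp0 : 0 ≤ t) (h1 : 6 * t + 3 ≤ j) (h2 : j < 7 * t + 3) :
    UC t j + t = 2 * j + 5 := by
  unfold UC; rw [if_neg (by omega), if_neg (by omega), if_neg (by omega), if_neg (by omega), if_neg (by omega), if_neg (by omega), if_pos (by omega)] <;> omega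

lemma UC_7 (t j : ℕ) (hp0 : 0 ≤ t) (h1 : 7 * t + 3 ≤ j) (h2 : j < 8 * t + 3) :
    UC t j + 3 * t = 2 * j + 4 := by
  unfold UC; rw [if_neg (by omega), if_neg (by omega), if_neg (by omega), if_neg (by omega), if_neg (by omega), if_neg (by omega), if_neg (by omega), if_pos (by omega)] <;> omega

lemma UC_8 (t j : ℕ) (hp0 : 0 ≤ t) (h1 : 8 * t + 3 ≤ j) (h2 : j < 8 * t + 4) :
    UC t j = 13 * t + 10 := by
  unfold UC; rw [if_neg (by omega), if_neg (by omega), if_neg (by omega), if_neg (by omega), if_neg (by omega), if_neg (by omega), if_neg (by omega), if_neg (by omega), if_pos (by omega)] <;> omega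

lemma UC_9 (t j : ℕ) (hp0 : 0 ≤ t) (h1 : 8 * t + 4 ≤ j) (h2 : j < 8 * t + 5) :
    UC t j = 7 * t + 6 := by
  unfold UC; rw [if_neg (by omega), if_neg (by omega), if_neg (by omega), if_neg (by omega), if_neg (by omega), if_neg (by omega), if_neg (by omega), if_neg (by omega), if_neg (by omega)] <;> omega

def WC (t j : ℕ) : ℕ :=
  if j < t then (3 * t + 3 - (j)) else
  if j < 2 * t + 1 then (10 * t + 7 - (j)) else
  if j < 3 * t + 1 then (t + 2 * j + 4) else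
  if j < 4 * t + 2 then (2 * j + 3 - (t)) else
  if j < 5 * t + 3 then (9 * t + 6 - (j)) else
  if j < 6 * t + 3 then (21 * t + 15 - (j)) else
  if j < 7 * t + 3 then (10 * t + 6 - (j)) else
  if j < 8 * t + 3 then (22 * t + 14 - (j)) else
  if j < 8 * t + 4 then (2 * t + 3) else
  (15 * t + 12)

lemma WC_0 (t j : ℕ) (hp0 : 0 ≤ t) (h1 : 0 ≤ j) (h2 : j < t) :
    WC t j + j = 3 * t + 3 := by
  unfold WC; rw [if_pos (by omega)] <;> omega

lemma WC_1 (t j : ℕ) (hp0 : 0 ≤ t) (h1 : t ≤ j) (h2 : j < 2 * t + 1) :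
    WC t j + j = 10 * t + 7 := by
  unfold WC; rw [if_neg (by omega), if_pos (by omega)] <;> omega

lemma WC_2 (t j : ℕ) (hp0 : 0 ≤ t) (h1 : 2 * t + 1 ≤ j) (h2 : j < 3 * t + 1) :
    WC t j = t + 2 * j + 4 := by
  unfold WC; rw [if_neg (by omega), if_neg (by omega), if_pos (by omega)] <;> omega

lemma WC_3 (t j : ℕ) (hp0 : 0 ≤ t) (h1 : 3 * t + 1 ≤ j) (h2 : j < 4 * t + 2) :
    WC t j + t = 2 * j + 3 := by
  unfold WC; rw [if_neg (by omega), if_neg (by omega), if_neg (by omega), if_pos (by omega)] <;> omega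

lemma WC_4 (t j : ℕ) (hp0 : 0 ≤ t) (h1 : 4 * t + 2 ≤ j) (h2 : j < 5 * t + 3) :
    WC t j + j = 9 * t + 6 := by
  unfold WC; rw [if_neg (by omega), if_neg (by omega), if_neg (by omega), if_neg (by omega), if_pos (by omega)] <;> omega

lemma WC_5 (t j : ℕ) (hp0 : 0 ≤ t) (h1 : 5 * t + 3 ≤ j) (h2 : j < 6 * t + 3) :
    WC t j + j = 21 * t + 15 := by
  unfold WC; rw [if_neg (by omega), if_neg (by omega), if_neg (by omega), if_neg (by omega), if_neg (by omega), if_pos (by omega)] <;> omega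

lemma WC_6 (t j : ℕ) (hp0 : 0 ≤ t) (h1 : 6 * t + 3 ≤ j) (h2 : j < 7 * t + 3) :
    WC t j + j = 10 * t + 6 := by
  unfold WC; rw [if_neg (by omega), if_neg (by omega), if_neg (by omega), if_neg (by omega), if_neg (by omega), if_neg (by omega), if_pos (by omega)] <;> omega

lemma WC_7 (t j : ℕ) (hp0 : 0 ≤ t) (h1 : 7 * t + 3 ≤ j) (h2 : j < 8 * t + 3) :
    WC t j + j = 22 * t + 14 := by
  unfold WC; rw [if_neg (by omega), if_neg (by omega), if_neg (by omega), if_neg (by omega), if_neg (by omega), if_neg (by omega), if_neg (by omega), if_pos (by omega)] <;> omega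

lemma WC_8 (t j : ℕ) (hp0 : 0 ≤ t) (h1 : 8 * t + 3 ≤ j) (h2 : j < 8 * t + 4) :
    WC t j = 2 * t + 3 := by
  unfold WC; rw [if_neg (by omega), if_neg (by omega), if_neg (by omega), if_neg (by omega), if_neg (by omega), if_neg (by omega), if_neg (by omega), if_neg (by omega), if_pos (by omega)] <;> omega

lemma WC_9 (t j : ℕ) (hp0 : 0 ≤ t) (h1 : 8 * t + 4 ≤ j) (h2 : j < 8 * t + 5) :
    WC t j = 15 * t + 12 := by
  unfold WC; rw [if_neg (by omega), if_neg (by omega), if_neg (by omega), if_neg (by omega), if_neg (by omega), if_neg (by omega), if_neg (by omega), if_neg (by omega), if_neg (by omega)] <;> omega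

lemma clC (t : ℕ) (hp0 : 0 ≤ t) (v : ℕ) (h1 : 1 ≤ v) (h2 : v ≤ 2 * (8 * t + 5) + 2) :
    (11 * t + 9) = v ∨ (2 * t + 2) = v ∨ ∃ j < (8 * t + 5), UC t j = v ∨ WC t j = v := by
  by_cases c0 : v ≤ 2 * t + 1
  · by_cases d0 : (v - (1)) % 2 = 0
    · obtain ⟨j, hj⟩ : ∃ j, j = (t) + (v - (1)) / 2 := ⟨_, rfl⟩
      have a0 := UC_1 t (j) hp0 (by omega) (by omega)
      exact Or.inr (Or.inr ⟨j, by omega, Or.inl (by omega)⟩)
    obtain ⟨j, hj⟩ : ∃ j, j = (0) + (v - (2)) / 2 := ⟨_, rfl⟩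
    have a0 := UC_0 t (j) hp0 (by omega) (by omega)
    exact Or.inr (Or.inr ⟨j, by omega, Or.inl (by omega)⟩)
  by_cases c1 : v ≤ 2 * t + 2
  · exact Or.inr (Or.inl (by omega))
  by_cases c2 : v ≤ 2 * t + 3
  · obtain ⟨j, hj⟩ : ∃ j, j = (8 * t + 3) := ⟨_, rfl⟩
    have a0 := WC_8 t (j) hp0 (by omega) (by omega)
    exact Or.inr (Or.inr ⟨j, by omega, Or.inr (by omega)⟩)
  by_cases c3 : v ≤ 3 * t + 3
  · obtain ⟨j, hj⟩ : ∃ j, j = (3 * t + 3 - (v)) := ⟨_, rfl⟩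
    have a0 := WC_0 t (j) hp0 (by omega) (by omega)
    exact Or.inr (Or.inr ⟨j, by omega, Or.inr (by omega)⟩)
  by_cases c4 : v ≤ 4 * t + 3
  · obtain ⟨j, hj⟩ : ∃ j, j = (10 * t + 6 - (v)) := ⟨_, rfl⟩
    have a0 := WC_6 t (j) hp0 (by omega) (by omega)
    exact Or.inr (Or.inr ⟨j, by omega, Or.inr (by omega)⟩)
  by_cases c5 : v ≤ 5 * t + 4
  · obtain ⟨j, hj⟩ : ∃ j, j = (9 * t + 6 - (v)) := ⟨_, rfl⟩
    have a0 := WC_4 t (j) hp0 (by omega) (by omega)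
    exact Or.inr (Or.inr ⟨j, by omega, Or.inr (by omega)⟩)
  by_cases c6 : v ≤ 7 * t + 5
  · by_cases d0 : (v - (5 * t + 5)) % 2 = 0
    · obtain ⟨j, hj⟩ : ∃ j, j = (3 * t + 1) + (v - (5 * t + 5)) / 2 := ⟨_, rfl⟩
      have a0 := WC_3 t (j) hp0 (by omega) (by omega)
      exact Or.inr (Or.inr ⟨j, by omega, Or.inr (by omega)⟩)
    obtain ⟨j, hj⟩ : ∃ j, j = (2 * t + 1) + (v - (5 * t + 6)) / 2 := ⟨_, rfl⟩
    have a0 := WC_2 t (j) hp0 (by omega) (by omega)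
    exact Or.inr (Or.inr ⟨j, by omega, Or.inr (by omega)⟩)
  by_cases c7 : v ≤ 7 * t + 6
  · obtain ⟨j, hj⟩ : ∃ j, j = (8 * t + 4) := ⟨_, rfl⟩
    have a0 := UC_9 t (j) hp0 (by omega) (by omega)
    exact Or.inr (Or.inr ⟨j, by omega, Or.inl (by omega)⟩)
  by_cases c8 : v ≤ 8 * t + 6
  · obtain ⟨j, hj⟩ : ∃ j, j = (10 * t + 7 - (v)) := ⟨_, rfl⟩
    have a0 := UC_2 t (j) hp0 (by omega) (by omega)
    exact Or.inr (Or.inr ⟨j, by omega, Or.inl (by omega)⟩)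
  by_cases c9 : v ≤ 9 * t + 7
  · obtain ⟨j, hj⟩ : ∃ j, j = (10 * t + 7 - (v)) := ⟨_, rfl⟩
    have a0 := WC_1 t (j) hp0 (by omega) (by omega)
    exact Or.inr (Or.inr ⟨j, by omega, Or.inr (by omega)⟩)
  by_cases c10 : v ≤ 11 * t + 8
  · by_cases d0 : (v - (9 * t + 8)) % 2 = 0
    · obtain ⟨j, hj⟩ : ∃ j, j = (4 * t + 2) + (v - (9 * t + 8)) / 2 := ⟨_, rfl⟩
      have a0 := UC_4 t (j) hp0 (by omega) (by omega)
      exact Or.inr (Or.inr ⟨j, by omega, Or.inl (by omega)⟩)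
    obtain ⟨j, hj⟩ : ∃ j, j = (5 * t + 3) + (v - (9 * t + 9)) / 2 := ⟨_, rfl⟩
    have a0 := UC_5 t (j) hp0 (by omega) (by omega)
    exact Or.inr (Or.inr ⟨j, by omega, Or.inl (by omega)⟩)
  by_cases c11 : v ≤ 11 * t + 9
  · exact Or.inl (by omega)
  by_cases c12 : v ≤ 13 * t + 9
  · by_cases d0 : (v - (11 * t + 10)) % 2 = 0
    · obtain ⟨j, hj⟩ : ∃ j, j = (7 * t + 3) + (v - (11 * t + 10)) / 2 := ⟨_, rfl⟩
      have a0 := UC_7 t (j) hp0 (by omega) (by omega)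
      exact Or.inr (Or.inr ⟨j, by omega, Or.inl (by omega)⟩)
    obtain ⟨j, hj⟩ : ∃ j, j = (6 * t + 3) + (v - (11 * t + 11)) / 2 := ⟨_, rfl⟩
    have a0 := UC_6 t (j) hp0 (by omega) (by omega)
    exact Or.inr (Or.inr ⟨j, by omega, Or.inl (by omega)⟩)
  by_cases c13 : v ≤ 13 * t + 10
  · obtain ⟨j, hj⟩ : ∃ j, j = (8 * t + 3) := ⟨_, rfl⟩
    have a0 := UC_8 t (j) hp0 (by omega) (by omega)
    exact Or.inr (Or.inr ⟨j, by omega, Or.inl (by omega)⟩)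
  by_cases c14 : v ≤ 14 * t + 11
  · obtain ⟨j, hj⟩ : ∃ j, j = (17 * t + 12 - (v)) := ⟨_, rfl⟩
    have a0 := UC_3 t (j) hp0 (by omega) (by omega)
    exact Or.inr (Or.inr ⟨j, by omega, Or.inl (by omega)⟩)
  by_cases c15 : v ≤ 15 * t + 11
  · obtain ⟨j, hj⟩ : ∃ j, j = (22 * t + 14 - (v)) := ⟨_, rfl⟩
    have a0 := WC_7 t (j) hp0 (by omega) (by omega)
    exact Or.inr (Or.inr ⟨j, by omega, Or.inr (by omega)⟩)
  by_cases c16 : v ≤ 15 * t + 12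
  · obtain ⟨j, hj⟩ : ∃ j, j = (8 * t + 4) := ⟨_, rfl⟩
    have a0 := WC_9 t (j) hp0 (by omega) (by omega)
    exact Or.inr (Or.inr ⟨j, by omega, Or.inr (by omega)⟩)
  obtain ⟨j, hj⟩ : ∃ j, j = (21 * t + 15 - (v)) := ⟨_, rfl⟩
  have a0 := WC_5 t (j) hp0 (by omega) (by omega)
  exact Or.inr (Or.inr ⟨j, by omega, Or.inr (by omega)⟩)

lemma csC (t : ℕ) (hp0 : 0 ≤ t) (v : ℕ) (h1 : (3 * t + 5) ≤ v) (h2 : v ≤ (3 * t + 5) + 3 * (8 * t + 5)) :
    (11 * t + 9) + (2 * t + 2) = v ∨ ∃ j < (8 * t + 5), (11 * t + 9) + UC t j = v ∨ (2 * t + 2) + WC t j = v ∨ UC t j + WC t j = v := by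
  by_cases c0 : v ≤ 4 * t + 4
  · obtain ⟨j, hj⟩ : ∃ j, j = (v - (3 * t + 5)) := ⟨_, rfl⟩
    have a0 := UC_0 t (j) hp0 (by omega) (by omega)
    have a1 := WC_0 t (j) hp0 (by omega) (by omega)
    exact Or.inr ⟨j, by omega, Or.inr (Or.inr (by omega))⟩
  by_cases c1 : v ≤ 4 * t + 5
  · obtain ⟨j, hj⟩ : ∃ j, j = (8 * t + 3) := ⟨_, rfl⟩
    have a0 := WC_8 t (j) hp0 (by omega) (by omega)
    exact Or.inr ⟨j, by omega, Or.inr (Or.inl (by omega))⟩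
  by_cases c2 : v ≤ 5 * t + 5
  · obtain ⟨j, hj⟩ : ∃ j, j = (5 * t + 5 - (v)) := ⟨_, rfl⟩
    have a0 := WC_0 t (j) hp0 (by omega) (by omega)
    exact Or.inr ⟨j, by omega, Or.inr (Or.inl (by omega))⟩
  by_cases c3 : v ≤ 6 * t + 5
  · obtain ⟨j, hj⟩ : ∃ j, j = (12 * t + 8 - (v)) := ⟨_, rfl⟩
    have a0 := WC_6 t (j) hp0 (by omega) (by omega)
    exact Or.inr ⟨j, by omega, Or.inr (Or.inl (by omega))⟩
  by_cases c4 : v ≤ 7 * t + 6
  · obtain ⟨j, hj⟩ : ∃ j, j = (11 * t + 8 - (v)) := ⟨_, rfl⟩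
    have a0 := WC_4 t (j) hp0 (by omega) (by omega)
    exact Or.inr ⟨j, by omega, Or.inr (Or.inl (by omega))⟩
  by_cases c5 : v ≤ 9 * t + 7
  · by_cases d0 : (v - (7 * t + 7)) % 2 = 0
    · obtain ⟨j, hj⟩ : ∃ j, j = (3 * t + 1) + (v - (7 * t + 7)) / 2 := ⟨_, rfl⟩
      have a0 := WC_3 t (j) hp0 (by omega) (by omega)
      exact Or.inr ⟨j, by omega, Or.inr (Or.inl (by omega))⟩
    obtain ⟨j, hj⟩ : ∃ j, j = (2 * t + 1) + (v - (7 * t + 8)) / 2 := ⟨_, rfl⟩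
    have a0 := WC_2 t (j) hp0 (by omega) (by omega)
    exact Or.inr ⟨j, by omega, Or.inr (Or.inl (by omega))⟩
  by_cases c6 : v ≤ 10 * t + 8
  · obtain ⟨j, hj⟩ : ∃ j, j = (v - (8 * t + 8)) := ⟨_, rfl⟩
    have a0 := UC_1 t (j) hp0 (by omega) (by omega)
    have a1 := WC_1 t (j) hp0 (by omega) (by omega)
    exact Or.inr ⟨j, by omega, Or.inr (Or.inr (by omega))⟩
  by_cases c7 : v ≤ 11 * t + 9
  · obtain ⟨j, hj⟩ : ∃ j, j = (12 * t + 9 - (v)) := ⟨_, rfl⟩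
    have a0 := WC_1 t (j) hp0 (by omega) (by omega)
    exact Or.inr ⟨j, by omega, Or.inr (Or.inl (by omega))⟩
  by_cases c8 : v ≤ 13 * t + 10
  · by_cases d0 : (v - (11 * t + 10)) % 2 = 0
    · obtain ⟨j, hj⟩ : ∃ j, j = (t) + (v - (11 * t + 10)) / 2 := ⟨_, rfl⟩
      have a0 := UC_1 t (j) hp0 (by omega) (by omega)
      exact Or.inr ⟨j, by omega, Or.inl (by omega)⟩
    obtain ⟨j, hj⟩ : ∃ j, j = (0) + (v - (11 * t + 11)) / 2 := ⟨_, rfl⟩
    have a0 := UC_0 t (j) hp0 (by omega) (by omega)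
    exact Or.inr ⟨j, by omega, Or.inl (by omega)⟩
  by_cases c9 : v ≤ 13 * t + 11
  · exact Or.inl (by omega)
  by_cases c10 : v ≤ 14 * t + 11
  · obtain ⟨j, hj⟩ : ∃ j, j = (v - (11 * t + 11)) := ⟨_, rfl⟩
    have a0 := UC_2 t (j) hp0 (by omega) (by omega)
    have a1 := WC_2 t (j) hp0 (by omega) (by omega)
    exact Or.inr ⟨j, by omega, Or.inr (Or.inr (by omega))⟩
  by_cases c11 : v ≤ 15 * t + 12
  · obtain ⟨j, hj⟩ : ∃ j, j = (v - (10 * t + 10)) := ⟨_, rfl⟩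
    have a0 := UC_4 t (j) hp0 (by omega) (by omega)
    have a1 := WC_4 t (j) hp0 (by omega) (by omega)
    exact Or.inr ⟨j, by omega, Or.inr (Or.inr (by omega))⟩
  by_cases c12 : v ≤ 15 * t + 13
  · obtain ⟨j, hj⟩ : ∃ j, j = (8 * t + 3) := ⟨_, rfl⟩
    have a0 := UC_8 t (j) hp0 (by omega) (by omega)
    have a1 := WC_8 t (j) hp0 (by omega) (by omega)
    exact Or.inr ⟨j, by omega, Or.inr (Or.inr (by omega))⟩
  by_cases c13 : v ≤ 16 * t + 13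
  · obtain ⟨j, hj⟩ : ∃ j, j = (v - (9 * t + 11)) := ⟨_, rfl⟩
    have a0 := UC_6 t (j) hp0 (by omega) (by omega)
    have a1 := WC_6 t (j) hp0 (by omega) (by omega)
    exact Or.inr ⟨j, by omega, Or.inr (Or.inr (by omega))⟩
  by_cases c14 : v ≤ 17 * t + 13
  · obtain ⟨j, hj⟩ : ∃ j, j = (24 * t + 16 - (v)) := ⟨_, rfl⟩
    have a0 := WC_7 t (j) hp0 (by omega) (by omega)
    exact Or.inr ⟨j, by omega, Or.inr (Or.inl (by omega))⟩
  by_cases c15 : v ≤ 17 * t + 14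
  · obtain ⟨j, hj⟩ : ∃ j, j = (8 * t + 4) := ⟨_, rfl⟩
    have a0 := WC_9 t (j) hp0 (by omega) (by omega)
    exact Or.inr ⟨j, by omega, Or.inr (Or.inl (by omega))⟩
  by_cases c16 : v ≤ 18 * t + 14
  · obtain ⟨j, hj⟩ : ∃ j, j = (23 * t + 17 - (v)) := ⟨_, rfl⟩
    have a0 := WC_5 t (j) hp0 (by omega) (by omega)
    exact Or.inr ⟨j, by omega, Or.inr (Or.inl (by omega))⟩
  by_cases c17 : v ≤ 18 * t + 15
  · obtain ⟨j, hj⟩ : ∃ j, j = (8 * t + 4) := ⟨_, rfl⟩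
    have a0 := UC_9 t (j) hp0 (by omega) (by omega)
    exact Or.inr ⟨j, by omega, Or.inl (by omega)⟩
  by_cases c18 : v ≤ 19 * t + 15
  · obtain ⟨j, hj⟩ : ∃ j, j = (21 * t + 16 - (v)) := ⟨_, rfl⟩
    have a0 := UC_2 t (j) hp0 (by omega) (by omega)
    exact Or.inr ⟨j, by omega, Or.inl (by omega)⟩
  by_cases c19 : v ≤ 20 * t + 16
  · obtain ⟨j, hj⟩ : ∃ j, j = (v - (16 * t + 15)) := ⟨_, rfl⟩
    have a0 := UC_3 t (j) hp0 (by omega) (by omega)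
    have a1 := WC_3 t (j) hp0 (by omega) (by omega)
    exact Or.inr ⟨j, by omega, Or.inr (Or.inr (by omega))⟩
  by_cases c20 : v ≤ 22 * t + 17
  · by_cases d0 : (v - (20 * t + 17)) % 2 = 0
    · obtain ⟨j, hj⟩ : ∃ j, j = (4 * t + 2) + (v - (20 * t + 17)) / 2 := ⟨_, rfl⟩
      have a0 := UC_4 t (j) hp0 (by omega) (by omega)
      exact Or.inr ⟨j, by omega, Or.inl (by omega)⟩
    obtain ⟨j, hj⟩ : ∃ j, j = (5 * t + 3) + (v - (20 * t + 18)) / 2 := ⟨_, rfl⟩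
    have a0 := UC_5 t (j) hp0 (by omega) (by omega)
    exact Or.inr ⟨j, by omega, Or.inl (by omega)⟩
  by_cases c21 : v ≤ 22 * t + 18
  · obtain ⟨j, hj⟩ : ∃ j, j = (8 * t + 4) := ⟨_, rfl⟩
    have a0 := UC_9 t (j) hp0 (by omega) (by omega)
    have a1 := WC_9 t (j) hp0 (by omega) (by omega)
    exact Or.inr ⟨j, by omega, Or.inr (Or.inr (by omega))⟩
  by_cases c22 : v ≤ 24 * t + 18
  · by_cases d0 : (v - (22 * t + 19)) % 2 = 0
    · obtain ⟨j, hj⟩ : ∃ j, j = (7 * t + 3) + (v - (22 * t + 19)) / 2 := ⟨_, rfl⟩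
      have a0 := UC_7 t (j) hp0 (by omega) (by omega)
      exact Or.inr ⟨j, by omega, Or.inl (by omega)⟩
    obtain ⟨j, hj⟩ : ∃ j, j = (6 * t + 3) + (v - (22 * t + 20)) / 2 := ⟨_, rfl⟩
    have a0 := UC_6 t (j) hp0 (by omega) (by omega)
    exact Or.inr ⟨j, by omega, Or.inl (by omega)⟩
  by_cases c23 : v ≤ 24 * t + 19
  · obtain ⟨j, hj⟩ : ∃ j, j = (8 * t + 3) := ⟨_, rfl⟩
    have a0 := UC_8 t (j) hp0 (by omega) (by omega)
    exact Or.inr ⟨j, by omega, Or.inl (by omega)⟩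
  by_cases c24 : v ≤ 25 * t + 20
  · obtain ⟨j, hj⟩ : ∃ j, j = (28 * t + 21 - (v)) := ⟨_, rfl⟩
    have a0 := UC_3 t (j) hp0 (by omega) (by omega)
    exact Or.inr ⟨j, by omega, Or.inl (by omega)⟩
  by_cases c25 : v ≤ 26 * t + 20
  · obtain ⟨j, hj⟩ : ∃ j, j = (v - (20 * t + 18)) := ⟨_, rfl⟩
    have a0 := UC_5 t (j) hp0 (by omega) (by omega)
    have a1 := WC_5 t (j) hp0 (by omega) (by omega)
    exact Or.inr ⟨j, by omega, Or.inr (Or.inr (by omega))⟩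
  obtain ⟨j, hj⟩ : ∃ j, j = (v - (19 * t + 18)) := ⟨_, rfl⟩
  have a0 := UC_7 t (j) hp0 (by omega) (by omega)
  have a1 := WC_7 t (j) hp0 (by omega) (by omega)
  exact Or.inr ⟨j, by omega, Or.inr (Or.inr (by omega))⟩

theorem result (n : ℕ) (hn : 5 ≤ n) : SEM n ↔ (Even n ∨ n % 8 = 5) := by
  rw [Nat.even_iff]
  refine ⟨nec n, fun h => ?_⟩
  obtain ⟨t, ht⟩ : ∃ t, n = 4 * t ∨ n = 4 * t + 2 ∨ n = 8 * t + 5 := by
    rcases h with h | h
    · exact ⟨n / 4, by omega⟩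
    · exact ⟨n / 8, by omega⟩
  rcases ht with h | h | h <;> rw [h]
  · exact mk _ _ _ _ _ _ (clA t (by omega)) (csA t (by omega))
  · exact mk _ _ _ _ _ _ (clB t (by omega)) (csB t (by omega))
  · exact mk _ _ _ _ _ _ (clC t (by omega)) (csC t (by omega))

end Pool.Agent.Results.MP_a60869_co.Full
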